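import Pool.Agent.MT100G.Stmts

/-! Module HPL of MT100-GEN: the half plane. -/

set_option autoImplicit false

namespace Pool.Agent.MT100G.H19

open Matrix Polynomial Pool.Agent.MT100 Pool.Agent.Helper78_MT

variable {d : Type} [Fintype d] [DecidableEq d] {q : ℤ[X]} {B : Matrix d d ℤ[X]}

theorem Stp.mono {U U' : Set ℂ} (h : U ⊆ U') {x y : ℂ × ℝ × (ℂ → Matrix d d ℂ)}
    (hs : Stp q B U x y) : Stp q B U' x y :=
  ⟨hs.1, hs.2.1, hs.2.2.1.trans h, hs.2.2.2.1.trans h, hs.2.2.2.2⟩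

theorem Stp.symm {U : Set ℂ} {x y : ℂ × ℝ × (ℂ → Matrix d d ℂ)}
    (hs : Stp q B U x y) : Stp q B U y x := by
  obtain ⟨h1, h2, h3, h4, h5, h6⟩ := hs
  refine ⟨h2, h1, h4, h3, ?_, fun w hw => (h6 w ⟨hw.2, hw.1⟩).symm⟩
  rw [Set.inter_comm]
  exact h5

theorem Cnt.mono {U U' : Set ℂ} (h : U ⊆ U') {x y : ℂ × ℝ × (ℂ → Matrix d d ℂ)}
    (hs : Cnt q B U x y) : Cnt q B U' x y :=
  Relation.ReflTransGen.mono (fun _ _ => Stp.mono h) _ _ hs

theorem Cnt.symm {U : Set ℂ} {x y : ℂ × ℝ × (ℂ → Matrix d d ℂ)}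
    (hs : Cnt q B U x y) : Cnt q B U y x := by
  induction hs with
  | refl => exact Relation.ReflTransGen.refl
  | tail _ h2 ih => exact Relation.ReflTransGen.head (Stp.symm h2) ih

theorem SolOn.mulg {c : ℂ} {ρ : ℝ} {Y : ℂ → Matrix d d ℂ} (h : SolOn q B c ρ Y)
    {g : Matrix d d ℂ} (hg : IsUnit g.det) : SolOn q B c ρ (fun w => Y w * g) := by
  refine ⟨h.pos, h.reg, fun w hw => ?_, fun w hw i j => ?_⟩
  · rw [Matrix.det_mul]
    exact (h.det w hw).mul hg
  · have h1 : HasDerivAt (fun x => ∑ k, Y x i k * g k j)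
        (∑ k, -((w * zC q w⁻¹)⁻¹ * (B.map (fun p => zC p w⁻¹) * Y w) i k) * g k j) w :=
      HasDerivAt.fun_sum fun k _ => (h.ode w hw i k).mul_const _
    have h2 : ∑ k, -((w * zC q w⁻¹)⁻¹ * (B.map (fun p => zC p w⁻¹) * Y w) i k) * g k j =
        -((w * zC q w⁻¹)⁻¹ * (B.map (fun p => zC p w⁻¹) * (Y w * g)) i j) := by
      rw [← Matrix.mul_assoc, Matrix.mul_apply (M := B.map (fun p => zC p w⁻¹) * Y w),
        Finset.mul_sum, ← Finset.sum_neg_distrib]
      exact Finset.sum_congr rfl fun k _ => by ring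
    rw [h2] at h1
    exact h1

/-- the base discs are connected -/
theorem conn {Y : ℂ → Matrix d d ℂ} {R : ℝ}
    (h : ∀ (c : ℂ) (ρ : ℝ), 0 < ρ → Metric.ball c ρ ⊆ {w | R < w.re} → SolOn q B c ρ Y)
    {g : Matrix d d ℂ} (hg : IsUnit g.det) :
    ∀ c c' : ℝ, R + 1 < c → R + 1 < c' →
      Cnt q B {w | R < w.re} ((c : ℂ), 1, fun w => Y w * g) ((c' : ℂ), 1, fun w => Y w * g) := by
  have hball : ∀ c : ℝ, R + 1 < c → Metric.ball (c : ℂ) 1 ⊆ {w : ℂ | R < w.re} := by
    intro c hc w hw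
    have h1 : ‖w - c‖ < 1 := by rwa [mem_ball_iff_norm] at hw
    have h2 : |(w - c).re| ≤ ‖w - c‖ := Complex.abs_re_le_norm _
    rw [Complex.sub_re, Complex.ofReal_re] at h2
    have h3 := (abs_lt.mp (h2.trans_lt h1)).1
    show R < w.re
    linarith
  have hsol : ∀ c : ℝ, R + 1 < c → SolOn q B (c : ℂ) 1 (fun w => Y w * g) := fun c hc =>
    SolOn.mulg (h c 1 one_pos (hball c hc)) hg
  have hstep : ∀ c c' : ℝ, R + 1 < c → R + 1 < c' → |c - c'| ≤ 1 →
      Stp q B {w | R < w.re} ((c : ℂ), 1, fun w => Y w * g) ((c' : ℂ), 1, fun w => Y w * g) := by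
    intro c c' hc hc' hcc
    refine ⟨hsol c hc, hsol c' hc', hball c hc, hball c' hc', ⟨((c + c') / 2 : ℝ), ?_, ?_⟩,
      fun w _ => rfl⟩
    · rw [mem_ball_iff_norm, ← Complex.ofReal_sub, Complex.norm_real, Real.norm_eq_abs]
      rw [show (c + c') / 2 - c = -((c - c') / 2) by ring, abs_neg, abs_div, abs_two]
      linarith
    · rw [mem_ball_iff_norm, ← Complex.ofReal_sub, Complex.norm_real, Real.norm_eq_abs]
      rw [show (c + c') / 2 - c' = (c - c') / 2 by ring, abs_div, abs_two]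
      linarith
  have hup : ∀ (n : ℕ) (c c' : ℝ), R + 1 < c → c ≤ c' → c' ≤ c + n →
      Cnt q B {w | R < w.re} ((c : ℂ), 1, fun w => Y w * g) ((c' : ℂ), 1, fun w => Y w * g) := by
    intro n
    induction n with
    | zero =>
      intro c c' _ h1 h2
      have h3 : c' = c := le_antisymm (by simpa using h2) h1
      rw [h3]
      exact Relation.ReflTransGen.refl
    | succ n ih =>
      intro c c' hc h1 h2
      rcases le_total c' (c + 1) with h3 | h3
      · refine Relation.ReflTransGen.single (hstep c c' hc (by linarith) ?_)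
        rw [abs_sub_comm, abs_of_nonneg (by linarith)]
        linarith
      · refine Relation.ReflTransGen.head (hstep c (c + 1) hc (by linarith) ?_)
          (ih (c + 1) c' (by linarith) h3 ?_)
        · rw [show c - (c + 1) = -1 by ring]; norm_num
        · push_cast at h2
          linarith
  intro c c' hc hc'
  rcases le_total c c' with h1 | h1
  · obtain ⟨n, hn⟩ := exists_nat_ge (c' - c)
    exact hup n c c' hc h1 (by linarith)
  · obtain ⟨n, hn⟩ := exists_nat_ge (c - c')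
    exact Cnt.symm (hup n c' c hc' h1 (by linarith))

/-- a chain lies in a half plane -/
theorem exists_half {x y : ℂ × ℝ × (ℂ → Matrix d d ℂ)} (h : Cnt q B Set.univ x y) :
    ∃ m : ℝ, Cnt q B {w | m < w.re} x y := by
  induction h with
  | refl => exact ⟨0, Relation.ReflTransGen.refl⟩
  | @tail b c hxb hbc ih =>
    obtain ⟨m, hm⟩ := ih
    have hball : ∀ (c : ℂ) (ρ m' : ℝ), m' ≤ c.re - ρ → Metric.ball c ρ ⊆ {w : ℂ | m' < w.re} := by
      intro c ρ m' hm' w hw
      have h1 : ‖w - c‖ < ρ := by rwa [mem_ball_iff_norm] at hw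
      have h2 : |(w - c).re| ≤ ‖w - c‖ := Complex.abs_re_le_norm _
      rw [Complex.sub_re] at h2
      have h3 := (abs_lt.mp (h2.trans_lt h1)).1
      show m' < w.re
      linarith
    obtain ⟨m', h0, h1, h2⟩ : ∃ m' : ℝ, m' ≤ m ∧ m' ≤ b.1.re - b.2.1 ∧ m' ≤ c.1.re - c.2.1 :=
      ⟨min m (min (b.1.re - b.2.1) (c.1.re - c.2.1)), min_le_left _ _,
        (min_le_right _ _).trans (min_le_left _ _), (min_le_right _ _).trans (min_le_right _ _)⟩
    refine ⟨m', Relation.ReflTransGen.tail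
      (Cnt.mono (fun w hw => lt_of_le_of_lt h0 (show m < w.re from hw)) hm) ?_⟩
    obtain ⟨s1, s2, -, -, s5⟩ := hbc
    exact ⟨s1, s2, hball _ _ _ h1, hball _ _ _ h2, s5⟩

/-- continuation in the domain of the given solution -/
theorem chain_eq (huni : UniStmt) {Y : ℂ → Matrix d d ℂ} {U : Set ℂ}
    (h : ∀ (c : ℂ) (ρ : ℝ), 0 < ρ → Metric.ball c ρ ⊆ U → SolOn q B c ρ Y) {c : ℂ} {ρ : ℝ}
    {y : ℂ × ℝ × (ℂ → Matrix d d ℂ)} (hc : Cnt q B U (c, ρ, Y) y) :
    ∀ w ∈ Metric.ball y.1 y.2.1, y.2.2 w = Y w := by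
  induction hc with
  | refl => exact fun w _ => rfl
  | @tail b e hxb hbe ih =>
    obtain ⟨s1, s2, s3, s4, ⟨w0, hw0⟩, s6⟩ := hbe
    have hY := h e.1 e.2.1 s2.pos s4
    obtain ⟨g, hg⟩ := huni d (fun w => -((w * zC q w⁻¹)⁻¹) • B.map (fun p => zC p w⁻¹))
      (Metric.ball e.1 e.2.1) Metric.isOpen_ball (convex_ball _ _) Y e.2.2
      (fun w hw => ⟨hY.det w hw, fun i j => by
        have h1 := hY.ode w hw i j
        rw [Matrix.smul_mul, Matrix.smul_apply, smul_eq_mul, neg_mul]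
        exact h1⟩)
      (fun w hw i j => by
        have h1 := s2.ode w hw i j
        rw [Matrix.smul_mul, Matrix.smul_apply, smul_eq_mul, neg_mul]
        exact h1)
    have h2 : Y w0 * g = Y w0 := by
      rw [← hg w0 hw0.2, ← s6 w0 hw0, ih w0 hw0.1]
    have h3 : g = 1 := by
      have h4 := hY.det w0 hw0.2
      have h5 : (Y w0)⁻¹ * (Y w0 * g) = (Y w0)⁻¹ * Y w0 := by rw [h2]
      rwa [← Matrix.mul_assoc, Matrix.nonsing_inv_mul _ h4, Matrix.one_mul] at h5
    intro w hw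
    rw [hg w hw, h3, Matrix.mul_one]

/-- a transvection -/
theorem exists_aut {J0 : Matrix d d ℚ} (hs : J0ᵀ = -J0) (hu : IsUnit J0.det) (i0 : d) :
    ∃ g ∈ Aut J0, ¬ Scal g := by
  obtain ⟨J, hJdef⟩ : ∃ J : Matrix d d ℂ, J = J0.map (algebraMap ℚ ℂ) := ⟨_, rfl⟩
  have hJ : Jᵀ = -J := by
    rw [hJdef, ← Matrix.transpose_map, hs]
    ext i j
    simp
  have hJu : IsUnit J.det := by
    rw [hJdef]
    have := hu.map (algebraMap ℚ ℂ)
    rwa [RingHom.map_det] at this
  obtain ⟨X, hX⟩ : ∃ X : Matrix d d ℂ, X = Matrix.single i0 i0 1 := ⟨_, rfl⟩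
  have hXt : Xᵀ = X := by rw [hX, Matrix.transpose_single]
  have hX0 : X ≠ 0 := by
    intro h
    have h1 := congrFun (congrFun h i0) i0
    rw [hX] at h1
    simp at h1
  have hJ0 : J i0 i0 = 0 := by
    have h1 := congrFun (congrFun hJ i0) i0
    rw [Matrix.transpose_apply, Matrix.neg_apply] at h1
    exact self_eq_neg.mp h1
  have hXJX : X * J * X = 0 := by
    ext i j
    rw [hX, Matrix.zero_apply, Matrix.mul_apply]
    refine Finset.sum_eq_zero fun k _ => ?_
    by_cases hk : k = i0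
    · subst hk
      by_cases hi : i = k
      · subst hi
        rw [Matrix.single_mul_apply_same, one_mul, hJ0, zero_mul]
      · rw [Matrix.single_mul_apply_of_ne _ _ _ _ _ hi, zero_mul]
    · rw [Matrix.single_apply_of_ne, mul_zero]
      rintro ⟨h, -⟩
      exact hk h.symm
  refine ⟨1 + X * J, ?_, ?_⟩
  · show (1 + X * J)ᵀ * J0.map (algebraMap ℚ ℂ) * (1 + X * J) = J0.map (algebraMap ℚ ℂ)
    rw [← hJdef, Matrix.transpose_add, Matrix.transpose_one, Matrix.transpose_mul, hJ, hXt]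
    have e1 : (1 + -J * X) * J * (1 + X * J) = J - J * (X * J * X) * J := by
      noncomm_ring
    rw [e1, hXJX]
    simp
  · rintro ⟨c, hc⟩
    have h1 : X * J = (c - 1) • (1 : Matrix d d ℂ) := by
      rw [sub_smul, one_smul, ← hc]
      simp
    have h2 : (c - 1) • X = 0 := by
      rw [← hXJX, h1, Matrix.smul_mul, Matrix.one_mul]
    have h3 : c - 1 = 0 := (smul_eq_zero.mp h2).resolve_right hX0
    rw [h3, zero_smul] at h1
    apply hX0
    have h4 : X * J * J⁻¹ = 0 := by rw [h1, Matrix.zero_mul]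
    rwa [Matrix.mul_assoc, Matrix.mul_nonsing_inv _ hJu, Matrix.mul_one] at h4

theorem exists_nonscal (F : Fam d) (i0 : d) :
    ∃ g ∈ mon F.H F.N F.q F.B Set.univ, ¬ Scal g := by
  by_contra hcon
  push Not at hcon
  obtain ⟨g, hg, hns⟩ := exists_aut F.skew F.unit i0
  apply hns
  have h1 : ∀ i j, i ≠ j → g i j = 0 := fun i j hij => by
    have h := F.big (MvPolynomial.X (i, j)) (fun g' hg' => by
      obtain ⟨c, hc⟩ := hcon g' hg'
      rw [pev_X, hc, Matrix.smul_apply, Matrix.one_apply_ne hij, smul_zero]) g hg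
    rwa [pev_X] at h
  have h2 : ∀ i j, g i i = g j j := fun i j => by
    have h := F.big (MvPolynomial.X (i, i) - MvPolynomial.X (j, j)) (fun g' hg' => by
      obtain ⟨c, hc⟩ := hcon g' hg'
      rw [map_sub, pev_X, pev_X, hc, Matrix.smul_apply, Matrix.smul_apply, Matrix.one_apply_eq,
        Matrix.one_apply_eq, sub_self]) g hg
    rw [map_sub, pev_X, pev_X] at h
    exact sub_eq_zero.mp h
  refine ⟨g i0 i0, ?_⟩
  ext i j
  rw [Matrix.smul_apply]
  by_cases hij : i = j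
  · subst hij
    rw [Matrix.one_apply_eq, smul_eq_mul, mul_one]
    exact h2 i i0
  · rw [Matrix.one_apply_ne hij, smul_zero]
    exact h1 i j hij

theorem aut_det {J0 : Matrix d d ℚ} (hu : IsUnit J0.det) {g : Matrix d d ℂ} (hg : g ∈ Aut J0) :
    IsUnit g.det := by
  have hJu : IsUnit (J0.map (algebraMap ℚ ℂ)).det := by
    have := hu.map (algebraMap ℚ ℂ)
    rwa [RingHom.map_det] at this
  have h1 : (gᵀ * J0.map (algebraMap ℚ ℂ) * g).det = (J0.map (algebraMap ℚ ℂ)).det :=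
    congrArg Matrix.det hg
  rw [Matrix.det_mul, Matrix.det_mul, Matrix.det_transpose] at h1
  rw [isUnit_iff_ne_zero] at hJu ⊢
  intro h0
  rw [h0, mul_zero] at h1
  exact hJu h1.symm

theorem ball_half {R c : ℝ} (hc : R + 1 < c) :
    Metric.ball (c : ℂ) 1 ⊆ {w : ℂ | R < w.re} := by
  intro w hw
  have h1 : ‖w - c‖ < 1 := by rwa [mem_ball_iff_norm] at hw
  have h2 : |(w - c).re| ≤ ‖w - c‖ := Complex.abs_re_le_norm _
  rw [Complex.sub_re, Complex.ofReal_re] at h2
  have h3 := (abs_lt.mp (h2.trans_lt h1)).1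
  show R < w.re
  linarith

theorem hpl (huni : UniStmt) (hbas : BasStmt) (hmon : MonStmt) : HplStmt := by
  intro d _ _ F hd
  obtain ⟨R, -, hsol, -⟩ := hbas d F.H F.K F.N F.q F.B F.sys
  obtain ⟨i0⟩ : Nonempty d := Fintype.card_pos_iff.mp (by omega)
  have ha : ∀ m : ℝ, R ≤ m → ∀ g ∈ mon F.H F.N F.q F.B {w | m < w.re}, Scal g := by
    intro m hm g hg
    obtain ⟨c, hc, hc'⟩ := (Filter.Eventually.and hg (Filter.eventually_gt_atTop (R + 1))).exists
    have h1 := chain_eq huni (U := {w : ℂ | m < w.re}) (fun c ρ hρ hb =>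
      hsol c ρ hρ (hb.trans fun w hw => lt_of_le_of_lt hm (show m < w.re from hw))) hc (c : ℂ)
      (Metric.mem_ball_self one_pos)
    have h2 := (hsol c 1 one_pos (ball_half hc')).det c (Metric.mem_ball_self one_pos)
    have h3 : (YH F.H F.N (c : ℂ))⁻¹ * (YH F.H F.N (c : ℂ) * g) =
        (YH F.H F.N (c : ℂ))⁻¹ * YH F.H F.N (c : ℂ) := congrArg _ h1
    rw [← Matrix.mul_assoc, Matrix.nonsing_inv_mul _ h2, Matrix.one_mul] at h3
    exact ⟨1, by rw [one_smul, h3]⟩
  obtain ⟨g, hg, hns⟩ := exists_nonscal F i0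
  have hgu : IsUnit g.det := aut_det F.unit ((hmon d F).1 hg)
  obtain ⟨c0, hc0, hc0'⟩ := (Filter.Eventually.and hg (Filter.eventually_gt_atTop (R + 1))).exists
  obtain ⟨m', hm'⟩ := exists_half hc0
  have hgm : g ∈ mon F.H F.N F.q F.B {w | min m' R < w.re} := by
    show ∀ᶠ c : ℝ in Filter.atTop, _
    filter_upwards [Filter.eventually_gt_atTop (R + 1)] with c hc
    have hsub : {w : ℂ | R < w.re} ⊆ {w | min m' R < w.re} := by
      intro w hw
      have hw' : R < w.re := hw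
      exact lt_of_le_of_lt (min_le_right m' R) hw'
    have e1 := Cnt.mono hsub (conn hsol (g := 1) (by rw [Matrix.det_one]; exact isUnit_one) c c0
      hc hc0')
    have e2 := Cnt.mono hsub (conn hsol hgu c0 c hc0' hc)
    have e3 : Cnt F.q F.B {w | min m' R < w.re} ((c0 : ℂ), 1, YH F.H F.N)
        ((c0 : ℂ), 1, fun w => YH F.H F.N w * g) :=
      Cnt.mono (fun w hw => lt_of_le_of_lt (min_le_left m' R) (show m' < w.re from hw)) hm'
    simp only [Matrix.mul_one] at e1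
    exact (e1.trans e3).trans e2
  obtain ⟨M, hM⟩ : ∃ M : Set ℝ, M = {m | ∃ g ∈ mon F.H F.N F.q F.B {w | m < w.re}, ¬ Scal g} :=
    ⟨_, rfl⟩
  have hne : M.Nonempty := ⟨min m' R, by rw [hM]; exact ⟨g, hgm, hns⟩⟩
  have hbd : BddAbove M := ⟨R, fun m hm => by
    rw [hM] at hm
    obtain ⟨g', hg', hns'⟩ := hm
    by_contra hlt
    push Not at hlt
    exact hns' (ha m hlt.le g' hg')⟩
  obtain ⟨m1, hm1, hlt⟩ := exists_lt_of_lt_csSup hne (show sSup M - 1 < sSup M by linarith)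
  refine ⟨m1, ?_, fun g' hg' => ?_⟩
  · rw [hM] at hm1
    exact hm1
  · by_contra hns'
    have h1 : m1 + 1 ∈ M := by rw [hM]; exact ⟨g', hg', hns'⟩
    have h2 := le_csSup hbd h1
    linarith

end Pool.Agent.MT100G.H19
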